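import Pool.Agent.D0H10.DF.Stm

/-!
# Project DF, module MM: the inequality of Moon and Moser for the numbers of cliques
-/

set_option autoImplicit false

namespace Pool.Agent.D0H13.DF

open Finset Pool.Agent.D0H10.DF

open Classical in
/-- the cliques with `s` vertices -/
noncomputable def K {V : Type} [Fintype V] (G : SimpleGraph V) (s : ℕ) : Finset (Finset V) :=
  (univ : Finset (Finset V)).filter (fun T => G.IsClique (T : Set V) ∧ T.card = s)

lemma mem_K {V : Type} [Fintype V] {G : SimpleGraph V} {s : ℕ} {T : Finset V} :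
    T ∈ K G s ↔ G.IsClique (T : Set V) ∧ T.card = s := by
  classical
  unfold K
  simp

lemma kq_eq {V : Type} [Fintype V] (G : SimpleGraph V) (s : ℕ) : kq G s = (K G s).card := by
  classical
  unfold kq
  rw [← Set.ncard_coe_finset]
  congr 1
  ext T
  simp [mem_K]

open Classical in
/-- the vertices outside `T` adjacent to all vertices of `T` -/
noncomputable def ext {V : Type} [Fintype V] (G : SimpleGraph V) (T : Finset V) : Finset V :=
  univ.filter (fun x => x ∉ T ∧ ∀ t ∈ T, G.Adj x t)

lemma mem_ext {V : Type} [Fintype V] {G : SimpleGraph V} {T : Finset V} {x : V} :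
    x ∈ ext G T ↔ x ∉ T ∧ ∀ t ∈ T, G.Adj x t := by
  classical
  unfold ext
  simp

open Classical in
lemma double {V : Type} [Fintype V] (G : SimpleGraph V) (s : ℕ) (f : Finset V → ℕ) :
    ∑ T ∈ K G s, (ext G T).card * f T = ∑ A ∈ K G (s + 1), ∑ x ∈ A, f (A.erase x) := by
  have h1 : ∀ T ∈ K G s, (ext G T).card * f T = ∑ _x ∈ ext G T, f T := by
    intro T _
    rw [Finset.sum_const, smul_eq_mul]
  rw [Finset.sum_congr rfl h1, Finset.sum_sigma', Finset.sum_sigma']
  refine Finset.sum_bij' (fun p _ => ⟨insert p.2 p.1, p.2⟩) (fun p _ => ⟨p.1.erase p.2, p.2⟩)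
    ?_ ?_ ?_ ?_ ?_
  · rintro ⟨T, x⟩ h
    simp only [Finset.mem_sigma, mem_K, mem_ext] at h ⊢
    refine ⟨⟨?_, ?_⟩, Finset.mem_insert_self _ _⟩
    · rw [Finset.coe_insert]
      exact h.1.1.insert (fun b hb _ => h.2.2 b hb)
    · rw [Finset.card_insert_of_notMem h.2.1, h.1.2]
  · rintro ⟨A, x⟩ h
    simp only [Finset.mem_sigma, mem_K, mem_ext] at h ⊢
    refine ⟨⟨?_, ?_⟩, Finset.notMem_erase _ _, ?_⟩
    · exact h.1.1.subset (by simp)
    · rw [Finset.card_erase_of_mem h.2, h.1.2]; rfl
    · intro t ht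
      rw [Finset.mem_erase] at ht
      exact h.1.1 (by exact_mod_cast h.2) (by exact_mod_cast ht.2) (Ne.symm ht.1)
  · rintro ⟨T, x⟩ h
    simp only [Finset.mem_sigma, mem_K, mem_ext] at h
    simp [Finset.erase_insert h.2.1]
  · rintro ⟨A, x⟩ h
    simp only [Finset.mem_sigma] at h
    simp [Finset.insert_erase h.2]
  · rintro ⟨T, x⟩ h
    simp only [Finset.mem_sigma, mem_K, mem_ext] at h
    simp [Finset.erase_insert h.2.1]

lemma sum_ext {V : Type} [Fintype V] (G : SimpleGraph V) (s : ℕ) :
    ∑ T ∈ K G s, (ext G T).card = (s + 1) * (K G (s + 1)).card := by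
  classical
  have h := double G s (fun _ => 1)
  simp only [mul_one, Finset.sum_const, smul_eq_mul] at h
  rw [h, Finset.sum_congr rfl (fun A hA => (mem_K.1 hA).2), Finset.sum_const, smul_eq_mul, mul_comm]

open Classical in
lemma local_le {V : Type} [Fintype V] (G : SimpleGraph V) (s : ℕ) (A : Finset V)
    (hA : A ∈ K G (s + 1)) :
    ∑ x ∈ A, (ext G (A.erase x)).card ≤ Fintype.card V + s * (ext G A).card := by
  have h1 : ∑ x ∈ A, (ext G (A.erase x)).card =
      ∑ y : V, (A.filter (fun x => y ∈ ext G (A.erase x))).card := by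
    simp only [Finset.card_eq_sum_ones, Finset.sum_filter]
    rw [Finset.sum_comm]
    refine Finset.sum_congr rfl fun x _ => ?_
    rw [← Finset.sum_filter]
    congr 1
    ext y
    simp
  have h2 : ∀ y : V, (A.filter (fun x => y ∈ ext G (A.erase x))).card ≤
      1 + if y ∈ ext G A then s else 0 := by
    intro y
    by_cases hy : y ∈ ext G A
    · rw [if_pos hy]
      refine (Finset.card_filter_le _ _).trans ?_
      rw [(mem_K.1 hA).2]; omega
    · rw [if_neg hy, add_zero, Finset.card_le_one]
      have key : ∀ x ∈ A, y ∈ ext G (A.erase x) → ∀ x' ∈ A, y ∈ ext G (A.erase x') → x = x' := by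
        intro x hx hyx x' hx' hyx'
        by_contra hne
        apply hy
        rw [mem_ext] at hyx hyx' ⊢
        refine ⟨fun hyA => ?_, fun t ht => ?_⟩
        · have e1 : y = x := by
            by_contra h
            exact hyx.1 (Finset.mem_erase.2 ⟨h, hyA⟩)
          have e2 : y = x' := by
            by_contra h
            exact hyx'.1 (Finset.mem_erase.2 ⟨h, hyA⟩)
          exact hne (e1.symm.trans e2)
        · by_cases htx : t = x
          · exact hyx'.2 t (Finset.mem_erase.2 ⟨fun h => hne (htx.symm.trans h), ht⟩)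
          · exact hyx.2 t (Finset.mem_erase.2 ⟨htx, ht⟩)
      intro a ha b hb
      rw [Finset.mem_filter] at ha hb
      exact key a ha.1 ha.2 b hb.1 hb.2
  rw [h1]
  refine (Finset.sum_le_sum fun y _ => h2 y).trans ?_
  rw [Finset.sum_add_distrib, Finset.sum_const, smul_eq_mul, mul_one, ← Finset.sum_filter,
    Finset.sum_const, smul_eq_mul, Finset.card_univ, Finset.filter_mem_eq_inter,
    Finset.univ_inter, mul_comm s]

theorem t_MM : S_MM := by
  classical
  intro V _ G s _
  simp only [kq_eq]
  have h1 := sum_ext G s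
  have h2 := double G s (fun T => (ext G T).card)
  have h3 : ∑ A ∈ K G (s + 1), ∑ x ∈ A, (ext G (A.erase x)).card ≤
      ∑ A ∈ K G (s + 1), (Fintype.card V + s * (ext G A).card) :=
    Finset.sum_le_sum fun A hA => local_le G s A hA
  have h4 := sum_ext G (s + 1)
  have h5 : (∑ T ∈ K G s, (ext G T).card) ^ 2 ≤ (K G s).card * ∑ T ∈ K G s, (ext G T).card ^ 2 :=
    sq_sum_le_card_mul_sum_sq
  rw [h1] at h5
  have h6 : ∑ A ∈ K G (s + 1), (Fintype.card V + s * (ext G A).card) =
      s * (s + 2) * (K G (s + 2)).card + Fintype.card V * (K G (s + 1)).card := by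
    rw [Finset.sum_add_distrib, Finset.sum_const, smul_eq_mul, ← Finset.mul_sum, h4]
    ring
  calc (s + 1) ^ 2 * (K G (s + 1)).card ^ 2 = ((s + 1) * (K G (s + 1)).card) ^ 2 := by ring
    _ ≤ _ := h5
    _ ≤ _ := by
        refine Nat.mul_le_mul_left _ ?_
        rw [← h6]
        refine le_trans (le_of_eq ?_) h3
        rw [← h2]
        exact Finset.sum_congr rfl fun T _ => by ring

end Pool.Agent.D0H13.DF
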