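import Pool.Agent.D0H10.DF.Stm

/-!
# Project DF, module POLY: the value at `-1/2` of a palindromic polynomial
-/

set_option autoImplicit false

namespace Pool.Agent.D0H13.DF

open Finset Polynomial Pool.Agent.R580.CD Pool.Agent.D0H10.DF

/-- the functional -/
noncomputable def L (m : ℕ) (q : ℤ[X]) : ℤ := ∑ j ∈ range (m + 1), (-1) ^ (m - j) * b m j * q.coeff j

lemma L_add (m : ℕ) (p q : ℤ[X]) : L m (p + q) = L m p + L m q := by
  unfold L
  rw [← Finset.sum_add_distrib]
  exact Finset.sum_congr rfl fun j _ => by rw [coeff_add]; ring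

lemma L_C (m : ℕ) (a : ℤ) (p : ℤ[X]) : L m (C a * p) = a * L m p := by
  unfold L
  rw [Finset.mul_sum]
  exact Finset.sum_congr rfl fun j _ => by rw [coeff_C_mul]; ring

lemma L_zero (m : ℕ) : L m 0 = 0 := by
  unfold L
  exact Finset.sum_eq_zero fun j _ => by simp

lemma L_sum {ι : Type} (m : ℕ) (s : Finset ι) (f : ι → ℤ[X]) :
    L m (∑ i ∈ s, f i) = ∑ i ∈ s, L m (f i) := by
  classical
  induction s using Finset.induction_on with
  | empty => simp [L_zero]
  | insert a s ha ih => rw [Finset.sum_insert ha, Finset.sum_insert ha, L_add, ih]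

lemma b_rec (m j : ℕ) (hj : j ≤ m) : b (m + 1) (j + 1) = b m j + b (m + 1) (j + 2) := by
  have h1 : b m j = ∑ i ∈ range (m - j + 1), ((2 * m + 1 - j).choose i : ℤ) := if_pos hj
  have h2 : b (m + 1) (j + 1) = ∑ i ∈ range (m - j + 1), ((2 * m + 1 - j + 1).choose i : ℤ) := by
    unfold b
    rw [if_pos (by omega), show m + 1 - (j + 1) + 1 = m - j + 1 by omega,
      show 2 * (m + 1) + 1 - (j + 1) = 2 * m + 1 - j + 1 by omega]
  have h3 : b (m + 1) (j + 2) = ∑ i ∈ range (m - j), ((2 * m + 1 - j).choose i : ℤ) := by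
    unfold b
    split_ifs with h
    · rw [show m + 1 - (j + 2) + 1 = m - j by omega,
        show 2 * (m + 1) + 1 - (j + 2) = 2 * m + 1 - j by omega]
    · rw [show m - j = 0 by omega, Finset.range_zero, Finset.sum_empty]
  rw [h2, Finset.sum_range_succ', h1, Finset.sum_range_succ', h3]
  simp only [Nat.choose_zero_right, Nat.choose_succ_succ, Nat.cast_add, Nat.cast_one,
    Finset.sum_add_distrib]
  ring

lemma b_top (m : ℕ) : b m (m + 1) = 0 := if_neg (by omega)

lemma b_zero (m : ℕ) : b m 0 = 4 ^ m := by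
  unfold b
  rw [if_pos (Nat.zero_le _), Nat.sub_zero, Nat.sub_zero]
  have := Nat.sum_range_choose_halfway m
  exact_mod_cast this

lemma L_succ (m : ℕ) (q : ℤ[X]) : L (m + 1) ((X + X ^ 2) * q) = L m q := by
  have e : (X + X ^ 2) * q = X * q + X * (X * q) := by ring
  unfold L
  rw [e, Finset.sum_range_succ']
  have h0 : (X * q + X * (X * q)).coeff 0 = 0 := by simp
  rw [h0, mul_zero, add_zero]
  have h1 : ∀ j ∈ range (m + 1), (-1 : ℤ) ^ (m + 1 - (j + 1)) * b (m + 1) (j + 1) *
      (X * q + X * (X * q)).coeff (j + 1) =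
      (-1) ^ (m - j) * b (m + 1) (j + 1) * q.coeff j +
        (-1) ^ (m - j) * b (m + 1) (j + 1) * (X * q).coeff j := by
    intro j _
    rw [coeff_add, coeff_X_mul, coeff_X_mul, show m + 1 - (j + 1) = m - j by omega]
    ring
  rw [Finset.sum_congr rfl h1, Finset.sum_add_distrib]
  have h2 : ∑ j ∈ range (m + 1), (-1 : ℤ) ^ (m - j) * b (m + 1) (j + 1) * (X * q).coeff j =
      -∑ j ∈ range (m + 1), (-1 : ℤ) ^ (m - j) * b (m + 1) (j + 2) * q.coeff j := by
    rw [Finset.sum_range_succ', coeff_X_mul_zero, mul_zero, add_zero,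
      Finset.sum_range_succ (fun j => (-1 : ℤ) ^ (m - j) * b (m + 1) (j + 2) * q.coeff j),
      b_top (m + 1), mul_zero, zero_mul, add_zero, ← Finset.sum_neg_distrib]
    refine Finset.sum_congr rfl fun j hj => ?_
    rw [Finset.mem_range] at hj
    rw [coeff_X_mul, show m - j = m - (j + 1) + 1 by omega, pow_succ]
    ring
  rw [h2, ← sub_eq_add_neg, ← Finset.sum_sub_distrib]
  refine Finset.sum_congr rfl fun j hj => ?_
  rw [Finset.mem_range] at hj
  rw [b_rec m j (by omega)]
  ring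

lemma L_pow (n i : ℕ) (q : ℤ[X]) : L (n + i) ((X + X ^ 2) ^ i * q) = L n q := by
  induction i generalizing n with
  | zero => simp
  | succ i ih =>
    rw [pow_succ', mul_assoc, show n + (i + 1) = (n + i) + 1 by omega, L_succ, ih]

lemma L_one (m : ℕ) : L m 1 = (-4) ^ m := by
  unfold L
  rw [Finset.sum_eq_single 0]
  · rw [b_zero, Nat.sub_zero, coeff_one_zero, mul_one, ← mul_pow]
    norm_num
  · intro j _ hj
    rw [coeff_one, if_neg hj, mul_zero]
  · intro h
    exact absurd (Finset.mem_range.2 (Nat.succ_pos m)) h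

lemma L_half (n : ℕ) : L n ((1 + 2 * X) ^ (2 * n)) = if n = 0 then 1 else 0 := by
  have e : ((1 : ℤ[X]) + 2 * X) ^ (2 * n) = ∑ k ∈ range (n + 1),
      C ((4 : ℤ) ^ k * (n.choose k : ℤ)) * (X + X ^ 2) ^ k := by
    have h1 : ((1 : ℤ[X]) + 2 * X) ^ 2 = 4 * (X + X ^ 2) + 1 := by ring
    rw [pow_mul, h1, add_pow]
    refine Finset.sum_congr rfl fun k _ => ?_
    rw [one_pow, mul_one, mul_pow, C_mul, C_pow, show (C (4 : ℤ) : ℤ[X]) = 4 from rfl]
    simp only [map_natCast]
    ring
  rw [e, L_sum]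
  have h2 : ∀ k ∈ range (n + 1), L n (C ((4 : ℤ) ^ k * (n.choose k : ℤ)) * (X + X ^ 2) ^ k) =
      4 ^ k * (-4) ^ (n - k) * (n.choose k : ℤ) := by
    intro k hk
    rw [Finset.mem_range] at hk
    rw [L_C]
    have h3 := L_pow (n - k) k 1
    rw [mul_one, Nat.sub_add_cancel (by omega), L_one] at h3
    rw [h3]
    ring
  rw [Finset.sum_congr rfl h2, ← add_pow]
  split_ifs with h
  · rw [h]; norm_num
  · rw [show (4 : ℤ) + -4 = 0 by norm_num, zero_pow h]

theorem t_POLY : S_POLY := by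
  intro m p hp hpal
  obtain ⟨γ, hγ, -⟩ := exists_gam (2 * m) p hp (by
    rw [hpal, pow_mul]
    norm_num)
  change (-4 : ℚ) ^ m * ev p = ((L m p : ℤ) : ℚ)
  have hd : 2 * m / 2 + 1 = m + 1 := by omega
  have h1 : L m p = γ m := by
    rw [hγ]
    unfold Phi
    rw [L_sum, hd, Finset.sum_range_succ, Finset.sum_eq_zero, zero_add]
    · rw [mul_assoc, L_C]
      have h := L_pow 0 m ((1 + 2 * X) ^ (2 * m - 2 * m))
      rw [zero_add] at h
      rw [h, Nat.sub_self]
      have h' := L_half 0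
      rw [Nat.mul_zero, if_pos rfl] at h'
      rw [h', mul_one]
    · intro i hi
      rw [Finset.mem_range] at hi
      rw [mul_assoc, L_C]
      have h := L_pow (m - i) i ((1 + 2 * X) ^ (2 * (m - i)))
      rw [Nat.sub_add_cancel (by omega), L_half, if_neg (by omega)] at h
      rw [show 2 * m - 2 * i = 2 * (m - i) by omega, h, mul_zero]
  have h2 : (-4 : ℚ) ^ m * ev p = (γ m : ℚ) := by
    have hC : ∀ a : ℤ, ev (C a) = (a : ℚ) := fun a => by
      show Polynomial.eval₂ (Int.castRingHom ℚ) (-1 / 2) (C a) = _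
      rw [Polynomial.eval₂_C]; rfl
    have e : ∀ i : ℕ, ev (C (γ i) * (X + X ^ 2) ^ i * (1 + 2 * X) ^ (2 * m - 2 * i)) =
        (γ i : ℚ) * (-1 / 4) ^ i * 0 ^ (2 * m - 2 * i) := by
      intro i
      simp only [map_mul, map_pow, map_add, map_one, map_ofNat, ev_X, hC]
      norm_num
    rw [hγ]
    unfold Phi
    rw [hd, map_sum, Finset.sum_congr rfl fun i _ => e i, Finset.sum_range_succ,
      Finset.sum_eq_zero, zero_add, Nat.sub_self, pow_zero, mul_one]
    · rw [mul_left_comm, ← mul_pow]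
      norm_num
    · intro i hi
      rw [Finset.mem_range] at hi
      rw [zero_pow (by omega), mul_zero]
  rw [h2, h1]

end Pool.Agent.D0H13.DF
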